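import Pool.Agent.BOX.StmtsT
import Pool.Agent.BOX.StmtsN

/-!
# Squad BOX: almost every box
-/

namespace Pool.Agent.BOX.H64

open Set Filter Topology MeasureTheory
open Pool.Agent.BOX

noncomputable section

/-- The Diophantine condition of order two for fixed constants. -/
def D2 (j τ : ℕ) : Set ℝ := {s | ∀ m : ℤ × ℤ × ℤ, ¬(m.1 = 0 ∧ m.2.1 = 0 ∧ m.2.2 = 0) →
  (1 / ((j : ℝ) + 1)) / (1 + |(m.1 : ℝ)| + |(m.2.1 : ℝ)| + |(m.2.2 : ℝ)|) ^ τ ≤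
    |m.1 + m.2.1 * s + m.2.2 * s ^ 2|}

theorem closed_D2 (j τ : ℕ) : IsClosed (D2 j τ) := by
  have h : D2 j τ = ⋂ m : ℤ × ℤ × ℤ, {s : ℝ | ¬(m.1 = 0 ∧ m.2.1 = 0 ∧ m.2.2 = 0) →
      (1 / ((j : ℝ) + 1)) / (1 + |(m.1 : ℝ)| + |(m.2.1 : ℝ)| + |(m.2.2 : ℝ)|) ^ τ ≤
      |m.1 + m.2.1 * s + m.2.2 * s ^ 2|} := by
    ext s
    simp [D2]
  rw [h]
  refine isClosed_iInter fun m => ?_
  by_cases hm : m.1 = 0 ∧ m.2.1 = 0 ∧ m.2.2 = 0
  · have : {s : ℝ | ¬(m.1 = 0 ∧ m.2.1 = 0 ∧ m.2.2 = 0) →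
      (1 / ((j : ℝ) + 1)) / (1 + |(m.1 : ℝ)| + |(m.2.1 : ℝ)| + |(m.2.2 : ℝ)|) ^ τ ≤
      |m.1 + m.2.1 * s + m.2.2 * s ^ 2|} = univ := by
      ext s
      simp only [mem_ofPred_eq, mem_univ, iff_true]
      intro h
      exact absurd hm h
    rw [this]
    exact isClosed_univ
  · have : {s : ℝ | ¬(m.1 = 0 ∧ m.2.1 = 0 ∧ m.2.2 = 0) →
      (1 / ((j : ℝ) + 1)) / (1 + |(m.1 : ℝ)| + |(m.2.1 : ℝ)| + |(m.2.2 : ℝ)|) ^ τ ≤
      |m.1 + m.2.1 * s + m.2.2 * s ^ 2|} = {s : ℝ |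
      (1 / ((j : ℝ) + 1)) / (1 + |(m.1 : ℝ)| + |(m.2.1 : ℝ)| + |(m.2.2 : ℝ)|) ^ τ ≤
      |m.1 + m.2.1 * s + m.2.2 * s ^ 2|} := by
      ext s
      simp only [mem_ofPred_eq]
      exact ⟨fun h => h hm, fun h _ => h⟩
    rw [this]
    exact isClosed_le continuous_const (by fun_prop)

theorem dio2_iff (s : ℝ) : Dio2 s ↔ s ∈ ⋃ j : ℕ, ⋃ τ : ℕ, D2 j τ := by
  constructor
  · rintro ⟨c, hc, τ, h⟩
    obtain ⟨j, hj⟩ := exists_nat_one_div_lt hc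
    refine mem_iUnion.2 ⟨j, mem_iUnion.2 ⟨τ, ?_⟩⟩
    intro m hm
    refine le_trans ?_ (h m.1 m.2.1 m.2.2 hm)
    have hp : 0 < (1 + |(m.1 : ℝ)| + |(m.2.1 : ℝ)| + |(m.2.2 : ℝ)|) ^ τ := by positivity
    exact div_le_div_of_nonneg_right hj.le hp.le
  · intro h
    obtain ⟨j, hj⟩ := mem_iUnion.1 h
    obtain ⟨τ, hτ⟩ := mem_iUnion.1 hj
    exact ⟨1 / ((j : ℝ) + 1), by positivity, τ, fun m0 m1 m2 hm => hτ (m0, m1, m2) hm⟩

theorem meas_dio2 : MeasurableSet {s : ℝ | Dio2 s} := by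
  have h : {s : ℝ | Dio2 s} = ⋃ j : ℕ, ⋃ τ : ℕ, D2 j τ := by
    ext s
    exact dio2_iff s
  rw [h]
  exact MeasurableSet.iUnion fun j => MeasurableSet.iUnion fun τ => (closed_D2 j τ).measurableSet

/-- Almost every rectangle is Diophantine. -/
theorem ae_rect (DIT : DitStmt) : ∀ᵐ l : Fin 2 → ℝ, (∀ i, 0 < l i) → Dio2 ((l 0 / l 1) ^ 2) := by
  have hm : MeasurableSet {x : ℝ × ℝ | 0 < x.1 → 0 < x.2 → Dio2 ((x.1 / x.2) ^ 2)} := by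
    have h1 : Measurable fun x : ℝ × ℝ => (x.1 / x.2) ^ 2 := by fun_prop
    have h2 : MeasurableSet {x : ℝ × ℝ | Dio2 ((x.1 / x.2) ^ 2)} := h1 meas_dio2
    have h3 : MeasurableSet {x : ℝ × ℝ | 0 < x.1} := measurableSet_lt measurable_const measurable_fst
    have h4 : MeasurableSet {x : ℝ × ℝ | 0 < x.2} := measurableSet_lt measurable_const measurable_snd
    have h5 : {x : ℝ × ℝ | 0 < x.1 → 0 < x.2 → Dio2 ((x.1 / x.2) ^ 2)} =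
        {x : ℝ × ℝ | 0 < x.1}ᶜ ∪ ({x : ℝ × ℝ | 0 < x.2}ᶜ ∪
          {x : ℝ × ℝ | Dio2 ((x.1 / x.2) ^ 2)}) := by
      ext x
      simp only [mem_ofPred_eq, mem_union, mem_compl_iff]
      tauto
    rw [h5]
    exact h3.compl.union (h4.compl.union h2)
  have h0 : ∀ᵐ x : ℝ × ℝ ∂((volume : Measure ℝ).prod volume),
      0 < x.1 → 0 < x.2 → Dio2 ((x.1 / x.2) ^ 2) := by
    rw [ae_iff]
    have hc : MeasurableSet {x : ℝ × ℝ | ¬(0 < x.1 → 0 < x.2 → Dio2 ((x.1 / x.2) ^ 2))} := hm.compl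
    rw [Measure.measure_prod_null hc]
    refine Eventually.of_forall fun l0 => ?_
    by_cases h : 0 < l0
    · have h1 := DIT.2 l0 h
      rw [ae_iff] at h1
      refine measure_mono_null ?_ h1
      intro l1 hl
      simp only [mem_preimage, mem_ofPred_eq] at hl ⊢
      tauto
    · have h1 : (Prod.mk l0 ⁻¹' {x : ℝ × ℝ | ¬(0 < x.1 → 0 < x.2 → Dio2 ((x.1 / x.2) ^ 2))}) =
          (∅ : Set ℝ) := by
        ext l1
        simp only [mem_preimage, mem_ofPred_eq, mem_empty_iff_false, iff_false, not_not]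
        intro h2
        exact absurd h2 h
      show volume (Prod.mk l0 ⁻¹' {x : ℝ × ℝ | ¬(0 < x.1 → 0 < x.2 → Dio2 ((x.1 / x.2) ^ 2))}) = 0
      rw [h1]
      exact measure_empty
  have hp := (volume_preserving_finTwoArrow ℝ).quasiMeasurePreserving.ae h0
  filter_upwards [hp] with l hl hpos
  exact hl (hpos 0) (hpos 1)

end

end Pool.Agent.BOX.H64
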