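import Pool.Agent.Helper64_BOX.PrtC

/-!
# Squad BOX, row PRT: the profile for `N = 2`
-/

namespace Pool.Agent.BOX.H64

open Set Filter Topology MeasureTheory
open Pool.Agent.BOX
open scoped ENNReal

noncomputable section

theorem T3_egg (n : ℤ) : T3 ee gg gg n = (qegg n : ℚ) := by
  rw [T3_fin ee gg gg SE SG ee_out gg_out]
  unfold qegg ee gg
  push_cast
  rfl

theorem T3_ggg (n : ℤ) : T3 gg gg gg n = (qggg n : ℚ) := by
  rw [T3_fin gg gg gg SG SG gg_out gg_out]
  unfold qggg gg
  push_cast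
  rfl

theorem sv_gg : sv gg = (qs : ℚ) := by
  unfold sv qs
  rw [T3_egg, T3_ggg]
  unfold gg
  push_cast
  rfl

theorem phi_gg (n : ℤ) : phi gg n = (qphi n : ℚ) := by
  unfold phi qphi
  rw [T3_egg, T3_ggg, sv_gg]
  by_cases h : Ix n
  · have h2 : n % 2 = 1 ∧ 3 ≤ n.natAbs := ⟨Int.odd_iff.1 h.1, h.2⟩
    rw [if_pos h, if_pos h2]
    unfold gg
    by_cases h3 : n.natAbs = 3
    · rw [if_pos h3, if_pos h3]
      push_cast
      rfl
    · rw [if_neg h3, if_neg h3]
      push_cast
      rfl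
  · have h2 : ¬(n % 2 = 1 ∧ 3 ≤ n.natAbs) := fun h3 => h ⟨Int.odd_iff.2 h3.1, h3.2⟩
    rw [if_neg h, if_neg h2, Rat.cast_zero]

theorem gq_far (n : ℤ) (h : 7 < n.natAbs) : gq n = 0 := by
  unfold gq
  rw [if_neg (by omega), if_neg (by omega), if_neg (by omega)]

theorem SG_mem {a : ℤ} (h : a ∈ SG) : a.natAbs ≤ 7 := by
  unfold SG at h
  simp only [Finset.mem_insert, Finset.mem_singleton] at h
  omega

theorem SE_mem {a : ℤ} (h : a ∈ SE) : a.natAbs ≤ 1 := by
  unfold SE at h
  simp only [Finset.mem_insert, Finset.mem_singleton] at h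
  omega

theorem qphi_out (n : ℤ) (h : n ∉ Finset.Icc (-21 : ℤ) 21) : qphi n = 0 := by
  rw [Finset.mem_Icc] at h
  have hn : 21 < n.natAbs := by omega
  have h1 : gq n = 0 := gq_far n (by omega)
  have h2 : gq (n - 2) = 0 := gq_far _ (by omega)
  have h3 : gq (n + 2) = 0 := gq_far _ (by omega)
  have h4 : qegg n = 0 := by
    unfold qegg
    refine Finset.sum_eq_zero fun a ha => Finset.sum_eq_zero fun b hb => ?_
    have ha' := SE_mem ha
    have hb' := SG_mem hb
    rw [gq_far (n - a - b) (by omega), mul_zero]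
  have h5 : qggg n = 0 := by
    unfold qggg
    refine Finset.sum_eq_zero fun a ha => Finset.sum_eq_zero fun b hb => ?_
    have ha' := SG_mem ha
    have hb' := SG_mem hb
    rw [gq_far (n - a - b) (by omega), mul_zero]
  unfold qphi
  rw [h1, h2, h3, h4, h5]
  have h6 : ¬ n.natAbs = 3 := by omega
  rw [if_neg h6]
  norm_num

theorem res_out (n : ℤ) (h : n ∉ Finset.Icc (-21 : ℤ) 21) : phi gg n - gg n = 0 := by
  rw [phi_gg, qphi_out n h]
  have h2 : gq n = 0 := by
    rw [Finset.mem_Icc] at h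
    exact gq_far n (by omega)
  unfold gg
  rw [h2]
  norm_num

theorem phi_out (n : ℤ) (h : n ∉ Finset.Icc (-21 : ℤ) 21) : phi gg n = 0 := by
  rw [phi_gg, qphi_out n h, Rat.cast_zero]

theorem sm_phi_gg : Sm wr (phi gg) := sm_fin _ phi_out

theorem res_gg : nm wr (fun n => phi gg n - gg n) ≤ 6 / 1000 := by
  rw [nm_fin _ res_out]
  have h := resq
  have h2 : ((∑ n ∈ Finset.Icc (-21 : ℤ) 21, |qphi n - gq n| * (101 / 100) ^ n.natAbs : ℚ) : ℝ) ≤
      ((6 / 1000 : ℚ) : ℝ) := Rat.cast_le.2 h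
  push_cast at h2
  refine le_trans (le_of_eq ?_) h2
  refine Finset.sum_congr rfl fun n _ => ?_
  rw [phi_gg]
  rfl

theorem abs_gg (n : ℤ) : |gg n| ≤ 7 / 100 := by
  unfold gg gq
  by_cases h3 : n.natAbs = 3
  · rw [if_pos h3]
    norm_num
  · rw [if_neg h3]
    by_cases h5 : n.natAbs = 5
    · rw [if_pos h5]
      norm_num
    · rw [if_neg h5]
      by_cases h7 : n.natAbs = 7
      · rw [if_pos h7]
        norm_num
      · rw [if_neg h7]
        norm_num

theorem gg_even (n : ℤ) : gg (-n) = gg n := by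
  unfold gg gq
  rw [Int.natAbs_neg]

theorem ee_even (n : ℤ) : ee (-n) = ee n := by
  unfold ee eq1
  rw [Int.natAbs_neg]

theorem gg_ix (n : ℤ) (h : ¬ Ix n) : gg n = 0 := by
  refine gg_out n fun hn => h ?_
  unfold SG at hn
  simp only [Finset.mem_insert, Finset.mem_singleton] at hn
  rcases hn with rfl | rfl | rfl | rfl | rfl | rfl <;> exact ⟨by decide, by decide⟩

theorem T3_ee (h : ℤ → ℝ) (n : ℤ) : T3 ee ee h n = 2 * h n + h (n - 2) + h (n + 2) := by
  rw [T3_fin ee ee h SE SE ee_out ee_out]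
  have e1 : ee (-1) = 1 := by
    unfold ee eq1
    norm_num
  have e2 : ee 1 = 1 := by
    unfold ee eq1
    norm_num
  unfold SE
  rw [Finset.sum_pair (by decide), Finset.sum_pair (by decide), Finset.sum_pair (by decide), e1, e2]
  have a1 : n - -1 - -1 = n + 2 := by ring
  have a2 : n - -1 - 1 = n := by ring
  have a3 : n - 1 - -1 = n := by ring
  have a4 : n - 1 - 1 = n - 2 := by ring
  rw [a1, a2, a3, a4]
  ring

section fix

variable (T3A : T3aStmt) (T3S : T3sStmt)

include T3S in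
theorem T3_even {F G H : ℤ → ℝ} (hF : Sm wr F) (hG : Sm wr G) (hH : Sm wr H)
    (eF : ∀ n, F (-n) = F n) (eG : ∀ n, G (-n) = G n) (eH : ∀ n, H (-n) = H n) (n : ℤ) :
    T3 F G H (-n) = T3 F G H n := by
  have h := (T3S ℤ ℝ F F G H (sm_norm hF) (sm_norm hF) (sm_norm hG) (sm_norm hH) n).2.2.2.2
    (AddEquiv.neg ℤ)
  have f1 : (fun x => F ((AddEquiv.neg ℤ) x)) = F := by
    funext x
    exact eF x
  have f2 : (fun x => G ((AddEquiv.neg ℤ) x)) = G := by
    funext x
    exact eG x
  have f3 : (fun x => H ((AddEquiv.neg ℤ) x)) = H := by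
    funext x
    exact eH x
  rw [f1, f2, f3] at h
  exact h.symm

theorem ix_neg (n : ℤ) : Ix (-n) ↔ Ix n := by
  unfold Ix
  rw [Int.natAbs_neg]
  have h : Odd (-n) ↔ Odd n := by
    rw [Int.odd_iff, Int.odd_iff]
    omega
  rw [h]

include T3S in
theorem phi_even {g : ℤ → ℝ} (hg : Sm wr g) (e : ∀ n, g (-n) = g n) (n : ℤ) :
    phi g (-n) = phi g n := by
  unfold phi
  have h1 := T3_even T3S sm_ee hg hg ee_even e e n
  have h2 := T3_even T3S hg hg hg e e e n
  rw [h1, h2]
  have h3 : g (-n - 2) = g (n + 2) := by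
    rw [← e (n + 2)]
    congr 1
    ring
  have h4 : g (-n + 2) = g (n - 2) := by
    rw [← e (n - 2)]
    congr 1
    ring
  rw [h3, h4, e n, Int.natAbs_neg]
  by_cases h : Ix n
  · rw [if_pos h, if_pos ((ix_neg n).2 h)]
    ring
  · rw [if_neg h, if_neg (fun h5 => h ((ix_neg n).1 h5))]

/-- The set in which the fixed point lies. -/
def SS : Set E := {x | (∀ n, un x (-n) = un x n) ∧ (∀ n, ¬ Ix n → un x n = 0) ∧
  dist x (mk gg sm_gg) ≤ 1 / 25}

theorem cont_un (n : ℤ) : Continuous fun x : E => un x n := by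
  have h1 : Continuous fun x : E => x n := by
    have h2 : LipschitzWith 1 fun x : E => x n := by
      refine LipschitzWith.of_dist_le_mul fun x y => ?_
      rw [NNReal.coe_one, one_mul, dist_eq_norm, dist_eq_norm]
      have h3 := lp.norm_apply_le_norm (p := (1 : ℝ≥0∞)) (by simp) (x - y) n
      exact h3
    exact h2.continuous
  exact h1.div_const _

theorem closed_SS : IsClosed SS := by
  have h1 : SS = (⋂ n : ℤ, {x : E | un x (-n) = un x n}) ∩
      ((⋂ n : ℤ, {x : E | ¬ Ix n → un x n = 0}) ∩ Metric.closedBall (mk gg sm_gg) (1 / 25)) := by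
    ext x
    simp [SS, Metric.mem_closedBall]
  rw [h1]
  refine (isClosed_iInter fun n => isClosed_eq (cont_un _) (cont_un _)).inter
    ((isClosed_iInter fun n => ?_).inter Metric.isClosed_closedBall)
  by_cases h : Ix n
  · have h2 : {x : E | ¬ Ix n → un x n = 0} = univ := by
      ext x
      simp [h]
    rw [h2]
    exact isClosed_univ
  · have h2 : {x : E | ¬ Ix n → un x n = 0} = {x : E | un x n = 0} := by
      ext x
      simp [h]
    rw [h2]
    exact isClosed_eq (cont_un _) continuous_const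

theorem SS_norm {x : E} (h : x ∈ SS) : nm wr (un x) ≤ 23 / 100 := by
  have h1 := h.2.2
  have h2 : ‖mk gg sm_gg‖ ≤ 19 / 100 := by
    rw [← nm_un, un_mk]
    exact nm_gg
  rw [nm_un]
  have h3 : ‖x‖ ≤ ‖x - mk gg sm_gg‖ + ‖mk gg sm_gg‖ := by
    have := norm_add_le (x - mk gg sm_gg) (mk gg sm_gg)
    simpa using this
  rw [← dist_eq_norm] at h3
  linarith

theorem SS_pt {x : E} (h : x ∈ SS) (n : ℤ) : |un x n| ≤ 11 / 100 := by
  have h1 := h.2.2
  rw [dist_E, un_mk] at h1
  have h2 := pt_le (sm_sub (sm_un x) sm_gg) n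
  have h3 := abs_gg n
  have h4 : |un x n| ≤ |un x n - gg n| + |gg n| := by
    have := abs_add_le (un x n - gg n) (gg n)
    simpa using this
  linarith

theorem gg_mem : mk gg sm_gg ∈ SS := by
  refine ⟨?_, ?_, ?_⟩
  · intro n
    rw [un_mk]
    exact gg_even n
  · intro n h
    rw [un_mk]
    exact gg_ix n h
  · rw [dist_self]
    norm_num

include T3A T3S in
theorem phi_sm {x : E} (h : x ∈ SS) : Sm wr (phi (un x)) := by
  have hg := gg_mem
  have h1 := (phi_diff T3A T3S (sm_un x) (sm_un (mk gg sm_gg)) (SS_norm h) (SS_norm hg) (SS_pt h)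
    (SS_pt hg)).1
  rw [un_mk] at h1
  have h2 := sm_add h1 sm_phi_gg
  simpa using h2

open Classical in
/-- The map on the space. -/
def Ph (x : E) : E := if h : Sm wr (phi (un x)) then mk (phi (un x)) h else 0

include T3A T3S in
theorem un_Ph {x : E} (h : x ∈ SS) : un (Ph x) = phi (un x) := by
  unfold Ph
  rw [dif_pos (phi_sm T3A T3S h), un_mk]

include T3A T3S in
theorem Ph_lip {x y : E} (hx : x ∈ SS) (hy : y ∈ SS) :
    dist (Ph x) (Ph y) ≤ 79 / 100 * dist x y := by
  rw [dist_E, dist_E, un_Ph T3A T3S hx, un_Ph T3A T3S hy]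
  exact (phi_diff T3A T3S (sm_un x) (sm_un y) (SS_norm hx) (SS_norm hy) (SS_pt hx) (SS_pt hy)).2

include T3A T3S in
theorem Ph_maps {x : E} (hx : x ∈ SS) : Ph x ∈ SS := by
  refine ⟨?_, ?_, ?_⟩
  · intro n
    rw [un_Ph T3A T3S hx]
    exact phi_even T3S (sm_un x) hx.1 n
  · intro n h
    rw [un_Ph T3A T3S hx]
    unfold phi
    rw [if_neg h]
  · have h1 := Ph_lip T3A T3S hx gg_mem
    have h2 : dist (Ph (mk gg sm_gg)) (mk gg sm_gg) ≤ 6 / 1000 := by
      rw [dist_E, un_Ph T3A T3S gg_mem, un_mk]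
      exact res_gg
    have h3 := dist_triangle (Ph x) (Ph (mk gg sm_gg)) (mk gg sm_gg)
    have h4 := hx.2.2
    linarith

include T3A T3S in
theorem exists_fix : ∃ g : ℤ → ℝ, Sm wr g ∧ nm wr g ≤ 23 / 100 ∧ (∀ n, |g n| ≤ 11 / 100) ∧
    (∀ n, g (-n) = g n) ∧ (∀ n, ¬ Ix n → g n = 0) ∧ ∀ n, phi g n = g n := by
  have hm : MapsTo Ph SS SS := fun x hx => Ph_maps T3A T3S hx
  have hc : ContractingWith ⟨79 / 100, by norm_num⟩ (hm.restrict Ph SS SS) := by
    refine ⟨?_, ?_⟩
    · rw [← NNReal.coe_lt_coe]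
      show (79 / 100 : ℝ) < 1
      norm_num
    · refine LipschitzWith.of_dist_le_mul fun x y => ?_
      exact Ph_lip T3A T3S x.2 y.2
  obtain ⟨x, hx, hfx, -⟩ := hc.exists_fixedPoint' closed_SS.isComplete hm gg_mem
    (edist_ne_top _ _)
  refine ⟨un x, sm_un x, SS_norm hx, SS_pt hx, hx.1, hx.2.1, fun n => ?_⟩
  have h1 := un_Ph T3A T3S hx
  have h2 : Ph x = x := hfx
  rw [h2] at h1
  exact (congrFun h1 n).symm

include T3S in
theorem cube {g : ℤ → ℝ} (hg : Sm wr g) (n : ℤ) :
    T3 (fun n => ee n + g n) (fun n => ee n + g n) (fun n => ee n + g n) n =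
      T3 ee ee ee n + 3 * T3 ee ee g n + 3 * T3 ee g g n + T3 g g g n := by
  have hw := sm_add sm_ee hg
  rw [T3_add1 T3S sm_ee hg hw hw, T3_add2 T3S sm_ee sm_ee hg hw, T3_add2 T3S hg sm_ee hg hw,
    T3_add3 T3S sm_ee sm_ee sm_ee hg, T3_add3 T3S sm_ee hg sm_ee hg, T3_add3 T3S hg sm_ee sm_ee hg,
    T3_add3 T3S hg hg sm_ee hg]
  have a1 : T3 ee g ee n = T3 ee ee g n := T3_sw2 T3S sm_ee hg sm_ee n
  have a2 : T3 g ee ee n = T3 ee ee g n := by
    rw [T3_sw1 T3S hg sm_ee sm_ee, a1]
  have a3 : T3 g ee g n = T3 ee g g n := T3_sw1 T3S hg sm_ee hg n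
  have a4 : T3 g g ee n = T3 ee g g n := by
    rw [T3_sw2 T3S hg hg sm_ee, a3]
  rw [a1, a2, a3, a4]
  ring

include T3A T3S in
theorem prt : PrtStmt := by
  obtain ⟨g, hg, hgn, hgp, hge, hgi, hfix⟩ := exists_fix T3A T3S
  have hw := sm_add sm_ee hg
  have hg1 : g 1 = 0 := hgi 1 (by
    rintro ⟨-, h⟩
    revert h
    decide)
  have hg1' : g (-1) = 0 := by rw [hge, hg1]
  have e1 : ee 1 = 1 := by
    unfold ee eq1
    norm_num
  have hsv := sv_le T3A hg hgn hgp
  have hsum2 : Summable fun n => (ee n + g n) ^ 2 := by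
    have h1 : Summable fun n => nm wr (fun n => ee n + g n) * ‖ee n + g n‖ :=
      (sm_norm hw).mul_left _
    refine Summable.of_nonneg_of_le (fun n => sq_nonneg _) (fun n => ?_) h1
    have h2 := pt_le hw n
    rw [← sq_abs, sq, Real.norm_eq_abs]
    exact mul_le_mul_of_nonneg_right h2 (abs_nonneg _)
  have hm2 : 2 ≤ ∑' n, (ee n + g n) ^ 2 := by
    have h1 := hsum2.sum_le_tsum ({1, -1} : Finset ℤ) (fun n _ => sq_nonneg _)
    rw [Finset.sum_pair (by decide), ee_even, e1, hg1, hg1'] at h1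
    norm_num at h1
    exact h1
  have h1eq : T3 (fun n => ee n + g n) (fun n => ee n + g n) (fun n => ee n + g n) 1 = 3 + sv g := by
    rw [cube T3S hg, T3_ee, T3_ee]
    have f1 : ee (1 - 2) = 1 := by
      have : (1 : ℤ) - 2 = -1 := by norm_num
      rw [this, ee_even, e1]
    have f2 : ee (1 + 2) = 0 := ee_out _ (by decide)
    have f3 : g (1 - 2) = 0 := by
      have : (1 : ℤ) - 2 = -1 := by norm_num
      rw [this, hg1']
    have f4 : g (1 + 2) = g 3 := by
      have : (1 : ℤ) + 2 = 3 := by norm_num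
      rw [this]
    rw [f1, f2, f3, f4, e1, hg1]
    unfold sv
    ring
  refine ⟨fun n => ee n + g n, 21 + sv g + 21 * ∑' q, (ee q + g q) ^ 2, 101 / 100, ?_⟩
  refine ⟨by norm_num, ?_, ?_, ?_, ?_, hw, ?_, ?_⟩
  · have := abs_le.1 hsv
    linarith
  · intro n
    rw [ee_even, hge]
  · intro n hn
    rw [hgi n (fun h => hn h.1), ee_out n ?_, add_zero]
    intro h
    unfold SE at h
    simp only [Finset.mem_insert, Finset.mem_singleton] at h
    rcases h with rfl | rfl <;> exact hn (by decide)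
  · show ee 1 + g 1 = 1
    rw [e1, hg1, add_zero]
  · have h1 := nm_add sm_ee hg
    rw [nm_ee] at h1
    have h2 : nm wr (fun n => ee n + g n) ≤ 2 * (101 / 100) + 1 / 4 := by linarith
    exact h2
  · intro n hn
    by_cases hI : Ix n
    · have h1 := hfix n
      unfold phi at h1
      rw [if_pos hI, div_eq_iff (by norm_num)] at h1
      rw [cube T3S hg, T3_ee, T3_ee]
      have he : ee n = 0 := ee_out n fun h => by
        have := SE_mem h
        have := hI.2
        omega
      have h3 : ee (n - 2) + ee (n + 2) = if n.natAbs = 3 then 1 else 0 := by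
        by_cases h : n.natAbs = 3
        · rw [if_pos h]
          have h4 : n = 3 ∨ n = -3 := by omega
          rcases h4 with rfl | rfl
          · have f1 : ee (3 - 2) = 1 := by
              have : (3 : ℤ) - 2 = 1 := by norm_num
              rw [this, e1]
            have f2 : ee (3 + 2) = 0 := ee_out _ (by decide)
            rw [f1, f2, add_zero]
          · have f1 : ee (-3 + 2) = 1 := by
              have : (-3 : ℤ) + 2 = -1 := by norm_num
              rw [this, ee_even, e1]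
            have f2 : ee (-3 - 2) = 0 := ee_out _ (by decide)
            rw [f1, f2, zero_add]
        · rw [if_neg h]
          have hI2 := hI.2
          have hI1 := hI.1
          have f1 : ee (n - 2) = 0 := ee_out _ fun h5 => by
            unfold SE at h5
            simp only [Finset.mem_insert, Finset.mem_singleton] at h5
            omega
          have f2 : ee (n + 2) = 0 := ee_out _ fun h5 => by
            unfold SE at h5
            simp only [Finset.mem_insert, Finset.mem_singleton] at h5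
            omega
          rw [f1, f2, add_zero]
      rw [← h3] at h1
      simp only [he, zero_add, mul_zero] at *
      linear_combination (1 : ℝ) * h1
    · have h2 : n = 1 ∨ n = -1 := by
        have h3 : ¬ 3 ≤ n.natAbs := fun h => hI ⟨hn, h⟩
        have h4 : n ≠ 0 ∧ n ≠ 2 ∧ n ≠ -2 := by
          refine ⟨?_, ?_, ?_⟩ <;>
          · rintro rfl
            revert hn
            decide
        omega
      have h5 : T3 (fun n => ee n + g n) (fun n => ee n + g n) (fun n => ee n + g n) n =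
          3 + sv g := by
        rcases h2 with rfl | rfl
        · exact h1eq
        · rw [T3_even T3S hw hw hw (fun n => by rw [ee_even, hge]) (fun n => by rw [ee_even, hge])
            (fun n => by rw [ee_even, hge]) 1]
          exact h1eq
      have h6 : ee n + g n = 1 := by
        rcases h2 with rfl | rfl
        · rw [e1, hg1, add_zero]
        · rw [ee_even, e1, hg1', add_zero]
      rw [h5, h6]
      ring

end fix

end

end Pool.Agent.BOX.H64
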