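import Pool.Agent.Helper64_BOX.Fin
import Pool.Agent.Helper64_BOX.PRT
import Pool.Agent.Helper77_BOX.T3A
import Pool.Agent.Helper8_BOX.T3S
import Pool.Agent.Helper27_BOX.EVM
import Pool.Agent.Helper5_BOX.EVT
import Pool.Agent.Helper4_BOX.EVD
import Pool.Agent.Helper62_BOX.EVR
import Pool.Agent.Helper69_BOX.REC
import Pool.Agent.Helper52_BOX.AMP
import Pool.Agent.Helper10_BOX.RSA
import Pool.Agent.Helper5_BOX.RSB
import Pool.Agent.Helper30_BOX.IOP
import Pool.Agent.Helper96_BOX.FIX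
import Pool.Agent.Helper4_BOX.SEQ
import Pool.Agent.Helper4_BOX.NRT
import Pool.Agent.Helper77_BOX.SCD
import Pool.Agent.Helper91_BOX.SCC
import Pool.Agent.Helper80_BOX.TOR
import Pool.Agent.Helper65_BOX.ENL
import Pool.Agent.Helper44_BOX.ENU
import Pool.Agent.Helper50_BOX.FNL
import Pool.Agent.Helper46_BOX.INT
import Pool.Agent.Helper62_BOX.GDT
import Pool.Agent.Helper43_BOX.CLT
import Pool.Agent.Helper66_BOX.FRT
import Pool.Agent.Helper65_BOX.MUT
import Pool.Agent.Helper23_BOX.DIT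
import Pool.Agent.Helper15_BOX.MAT
import Pool.Agent.Helper49_BOX.NRM
import Pool.Agent.Helper47_BOX.FMN
import Pool.Agent.Helper98_BOX.FMT
import Pool.Agent.Helper27_BOX.PRNa
import Pool.Agent.Helper60_BOX.INN
import Pool.Agent.Helper24_BOX.GDN
import Pool.Agent.Helper49_BOX.CLN
import Pool.Agent.Helper95_BOX.FRN
import Pool.Agent.Helper65_BOX.MUN
import Pool.Agent.Helper91_BOX.DIN
import Pool.Agent.Helper59_BOX.MAN

/-!
# Squad BOX: composition of all rows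
-/

namespace Pool.Agent.BOX.All

open Pool.Agent.BOX MeasureTheory

theorem seq : SeqStmt :=
  H4.seq H4.evd (H69.rec H8.t3s) H52.amp (H10.rsa H77.t3a H8.t3s H4.evd H5.evt H62.evr)
    (H5.rsb H77.t3a H4.evd H62.evr) (H96.fix H77.t3a H8.t3s H30.iop)

theorem tor : TorStmt := H80.tor H77.t3a H77.scd H91.scc

theorem fnl : FnlStmt := H50.fnl tor H65.enl H44.enu

theorem frt : FrtStmt :=
  H66.frt H8.t3s H4.nrt (H98.fmt H77.t3a) (H64.prt H77.t3a H8.t3s) (H46.int H77.t3a)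
    (H62.gdt H77.t3a H8.t3s) H43.clt

theorem frn : FrnStmt :=
  H95.frn H8.t3s H49.nrm (H47.fmn H77.t3a) (H27.prn H77.t3a) (H60.inn H77.t3a)
    (H24.gdn H77.t3a H8.t3s) H49.cln

theorem mat : MatStmt :=
  H15.mat seq fnl frt (H65.mut2 H77.t3a H8.t3s H27.evm)

theorem man : ManStmt := H59.man seq fnl frn (H65.mun H77.t3a H8.t3s H27.evm)

theorem all :
    (∀ l : Fin 2 → ℝ, (∀ i, 0 < l i) → Dio2 ((l 0 / l 1) ^ 2) → ∀ a > 0, Rate l a) ∧
    (∀ (N : ℕ) (l : Fin N → ℝ), 3 ≤ N → (∀ i, 0 < l i) → DioN l → ∀ a > 0, Rate l a) ∧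
    ∀ N : ℕ, 2 ≤ N → ∀ᵐ l : Fin N → ℝ, (∀ i, 0 < l i) → ∀ a > 0, Rate l a :=
  H64.fin mat man H23.dit H91.din

end Pool.Agent.BOX.All
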