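import Pool.Agent.Helper64_BOX.All

/-!
# MP_be01ff_an: sharp energy decay in almost every rectangle and box (cubic damping)
-/

namespace Pool.Agent.Results.MP_be01ff_an.BoxRate

open Set Filter Topology MeasureTheory

noncomputable section

variable {N : ℕ}

/-- The box `Ω = ∏ (0, l_i)` of `ℝ^N`. -/
def Box (l : Fin N → ℝ) : Set (Fin N → ℝ) := {x | ∀ i, 0 < x i ∧ x i < l i}

/-- The time derivative `u_t`. -/
def dt (u : ℝ → (Fin N → ℝ) → ℝ) (t : ℝ) (x : Fin N → ℝ) : ℝ := deriv (fun s => u s x) t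

/-- The second time derivative `u_tt`. -/
def dtt (u : ℝ → (Fin N → ℝ) → ℝ) (t : ℝ) (x : Fin N → ℝ) : ℝ := iteratedDeriv 2 (fun s => u s x) t

/-- The derivative `∂f/∂x_i`. -/
def dx (i : Fin N) (f : (Fin N → ℝ) → ℝ) (x : Fin N → ℝ) : ℝ :=
  deriv (fun s : ℝ => f (x + s • Pi.single i (1 : ℝ))) 0

/-- The second derivative `∂²f/∂x_i²`. -/
def dxx (i : Fin N) (f : (Fin N → ℝ) → ℝ) (x : Fin N → ℝ) : ℝ :=
  iteratedDeriv 2 (fun s : ℝ => f (x + s • Pi.single i (1 : ℝ))) 0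

/-- `u` is a classical solution of `u_tt - Δu + a |u_t|^α u_t = 0` in the box for `t ≥ 0`, with
`u = 0` on the boundary of the box; `u` is of class `C²` in `(t, x)` for `t > -ε`, `x ∈ ℝ^N`. -/
structure IsClassicalSolution (l : Fin N → ℝ) (a α : ℝ) (u : ℝ → (Fin N → ℝ) → ℝ) : Prop where
  smooth : ∃ ε > 0, ContDiffOn ℝ 2 (fun q : ℝ × (Fin N → ℝ) => u q.1 q.2) {q | -ε < q.1}
  pde : ∀ t, 0 ≤ t → ∀ x ∈ Box l,
    dtt u t x - ∑ i, dxx i (u t) x + a * |dt u t x| ^ α * dt u t x = 0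
  boundary : ∀ t, 0 ≤ t → ∀ x ∈ frontier (Box l), u t x = 0

/-- The energy `E(t) = ∫_Ω (u_t² + |∇u|²) dx`. -/
def energy (l : Fin N → ℝ) (u : ℝ → (Fin N → ℝ) → ℝ) (t : ℝ) : ℝ :=
  ∫ x in Box l, (dt u t x ^ 2 + ∑ i, dx i (u t) x ^ 2)

/-- There is a classical solution with `E(t) ∼ (1+t)^(-2/α)`. -/
def SharpRate (l : Fin N → ℝ) (a α : ℝ) : Prop :=
  ∃ u : ℝ → (Fin N → ℝ) → ℝ, IsClassicalSolution l a α u ∧ ∃ c C : ℝ, 0 < c ∧ c ≤ C ∧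
    ∀ t, 0 ≤ t → c * (1 + t) ^ (-(2 / α)) ≤ energy l u t ∧
      energy l u t ≤ C * (1 + t) ^ (-(2 / α))

/-- The Diophantine condition of order two:
`|m_0 + m_1 s + m_2 s²| ≥ c (1 + |m_0| + |m_1| + |m_2|)^(-τ)` for all `0 ≠ m ∈ ℤ³`. -/
def Dioph2 (s : ℝ) : Prop := ∃ c > 0, ∃ τ : ℕ, ∀ m0 m1 m2 : ℤ, ¬(m0 = 0 ∧ m1 = 0 ∧ m2 = 0) →
  c / (1 + |(m0 : ℝ)| + |(m1 : ℝ)| + |(m2 : ℝ)|) ^ τ ≤ |m0 + m1 * s + m2 * s ^ 2|

/-- The Diophantine condition for the numbers `1 / l_i²`: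
`|∑ m_i / l_i²| ≥ c (1 + ∑ |m_i|)^(-τ)` for all `0 ≠ m ∈ ℤ^N`. -/
def DiophN (l : Fin N → ℝ) : Prop := ∃ c > 0, ∃ τ : ℕ, ∀ m : Fin N → ℤ, m ≠ 0 →
  c / (1 + ∑ i, |(m i : ℝ)|) ^ τ ≤ |∑ i, (m i : ℝ) / l i ^ 2|

/-- From the definitions of the squad. -/
theorem of_rate {l : Fin N → ℝ} {a : ℝ} (h : Pool.Agent.BOX.Rate l a) : SharpRate l a 2 := by
  obtain ⟨u, hu, c, C, hc, hE⟩ := h
  refine ⟨u, ⟨hu.smooth, hu.eq, hu.bdy⟩, c, C, hc, ?_, ?_⟩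
  · have h0 := hE 0 le_rfl
    have h1 := le_trans h0.1 h0.2
    simpa using h1
  · intro t ht
    have e : (-(2 / 2) : ℝ) = -1 := by norm_num
    rw [e]
    exact hE t ht

/-- **Sharp energy decay in rectangles and boxes, `α = 2`.** The equation
`u_tt - Δu + a |u_t|² u_t = 0` with `u = 0` on the boundary has a classical solution with
`c (1+t)^(-2/α) ≤ E(t) ≤ C (1+t)^(-2/α)` for all `t ≥ 0`, `α = 2`, in the box `∏ (0, l_i)`, for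
every `a > 0`: if `N = 2` and `s = (l_0/l_1)²` satisfies the Diophantine condition of order two; if
`N ≥ 3` and `(1/l_i²)` satisfies the Diophantine condition; hence for every `N ≥ 2` and almost
every box. -/
theorem result :
    (∀ l : Fin 2 → ℝ, (∀ i, 0 < l i) → Dioph2 ((l 0 / l 1) ^ 2) → ∀ a > 0, SharpRate l a 2) ∧
    (∀ (N : ℕ) (l : Fin N → ℝ), 3 ≤ N → (∀ i, 0 < l i) → DiophN l → ∀ a > 0, SharpRate l a 2) ∧
    ∀ N : ℕ, 2 ≤ N → ∀ᵐ l : Fin N → ℝ, (∀ i, 0 < l i) → ∀ a > 0, SharpRate l a 2 := by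
  obtain ⟨h1, h2, h3⟩ := Pool.Agent.BOX.All.all
  refine ⟨fun l hl hd a ha => of_rate (h1 l hl hd a ha),
    fun N l hN hl hd a ha => of_rate (h2 N l hN hl hd a ha), fun N hN => ?_⟩
  filter_upwards [h3 N hN] with l hl hp a ha
  exact of_rate (hl hp a ha)

end

end Pool.Agent.Results.MP_be01ff_an.BoxRate
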