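import Pool.Agent.Helper64_BOX.Aeb

/-!
# Squad BOX: the theorem from the rows MAT, MAN, DIT, DIN
-/

namespace Pool.Agent.BOX.H64

open Set Filter Topology MeasureTheory
open Pool.Agent.BOX

theorem fin (MAT : MatStmt) (MAN : ManStmt) (DIT : DitStmt) (DIN : DinStmt) :
    (∀ l : Fin 2 → ℝ, (∀ i, 0 < l i) → Dio2 ((l 0 / l 1) ^ 2) → ∀ a > 0, Rate l a) ∧
    (∀ (N : ℕ) (l : Fin N → ℝ), 3 ≤ N → (∀ i, 0 < l i) → DioN l → ∀ a > 0, Rate l a) ∧
    ∀ N : ℕ, 2 ≤ N → ∀ᵐ l : Fin N → ℝ, (∀ i, 0 < l i) → ∀ a > 0, Rate l a := by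
  refine ⟨fun l hl hd a ha => MAT l a hl ha hd, fun N l hN hl hd a ha => MAN N l a hN hl ha hd, ?_⟩
  intro N hN
  rcases Nat.lt_or_ge N 3 with h | h
  · obtain rfl : N = 2 := by omega
    filter_upwards [ae_rect DIT] with l h1 hl a ha
    exact MAT l a hl ha (h1 hl)
  · filter_upwards [DIN N (by omega)] with l h1 hl a ha
    exact MAN N l a h hl ha (h1 hl)

end Pool.Agent.BOX.H64
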