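import Mathlib

/-!
# Squad BOX, row PRT: the finite computation
-/

namespace Pool.Agent.BOX.H64

/-- The centre. -/
def gq (n : ℤ) : ℚ :=
  if n.natAbs = 3 then 7 / 100 else if n.natAbs = 5 then 16 / 1000 else
    if n.natAbs = 7 then 5 / 1000 else 0

/-- The main mode. -/
def eq1 (n : ℤ) : ℚ := if n.natAbs = 1 then 1 else 0

/-- The support of the centre. -/
def SG : Finset ℤ := {-7, -5, -3, 3, 5, 7}

/-- The support of the main mode. -/
def SE : Finset ℤ := {-1, 1}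

/-- `T3 e g g`. -/
def qegg (n : ℤ) : ℚ := ∑ a ∈ SE, ∑ b ∈ SG, eq1 a * gq b * gq (n - a - b)

/-- `T3 g g g`. -/
def qggg (n : ℤ) : ℚ := ∑ a ∈ SG, ∑ b ∈ SG, gq a * gq b * gq (n - a - b)

/-- The value of `s`. -/
def qs : ℚ := 3 * gq 3 + 3 * qegg 1 + qggg 1

/-- The value of the map. -/
def qphi (n : ℤ) : ℚ :=
  if n % 2 = 1 ∧ 3 ≤ n.natAbs then
    ((if n.natAbs = 3 then 1 else 0) + 3 * (gq (n - 2) + gq (n + 2)) + 3 * qegg n + qggg n +
      18 * (gq n) ^ 3 - qs * gq n) / 15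
  else 0

theorem resq : ∑ n ∈ Finset.Icc (-21 : ℤ) 21, |qphi n - gq n| * (101 / 100) ^ n.natAbs ≤
    6 / 1000 := by
  decide +kernel

end Pool.Agent.BOX.H64
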