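import Pool.Agent.BOX.StmtsT
import Pool.Agent.Helper64_BOX.PrtQ

/-!
# Squad BOX, row PRT: weighted families on the integers
-/

namespace Pool.Agent.BOX.H64

open Set Filter Topology MeasureTheory
open Pool.Agent.BOX
open scoped ENNReal

noncomputable section

/-- The weight. -/
def wr (n : ℤ) : ℝ := (101 / 100 : ℝ) ^ n.natAbs

theorem wr_pos (n : ℤ) : 0 < wr n := by
  unfold wr
  positivity

theorem wr_one (n : ℤ) : 1 ≤ wr n := one_le_pow₀ (by norm_num)

theorem wt_wr : Wt wr := ⟨wr_one, fun m n => by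
  unfold wr
  rw [← pow_add]
  exact pow_le_pow_right₀ (by norm_num) (Int.natAbs_add_le m n)⟩

/-- The space. -/
abbrev E := lp (fun _ : ℤ => ℝ) 1

/-- The family of an element. -/
def un (x : E) (n : ℤ) : ℝ := x n / wr n

theorem sm_abs (x : E) : Summable fun n => ‖x n‖ := by
  have h := (memℓp_gen_iff (p := (1 : ℝ≥0∞)) (by simp)).1 (lp.memℓp x)
  simpa using h

theorem norm_E (x : E) : ‖x‖ = ∑' n, ‖x n‖ := by
  have h := lp.norm_eq_tsum_rpow (p := (1 : ℝ≥0∞)) (by simp) x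
  simpa using h

theorem un_mul (x : E) (n : ℤ) : ‖un x n‖ * wr n = ‖x n‖ := by
  have h := wr_pos n
  unfold un
  rw [norm_div, Real.norm_of_nonneg h.le]
  field_simp

theorem sm_un (x : E) : Sm wr (un x) := by
  unfold Sm
  simp only [un_mul]
  exact sm_abs x

theorem nm_un (x : E) : nm wr (un x) = ‖x‖ := by
  unfold nm
  simp only [un_mul]
  exact (norm_E x).symm

/-- The element of a family. -/
def mk (F : ℤ → ℝ) (h : Sm wr F) : E := ⟨fun n => F n * wr n, by
  refine (memℓp_gen_iff (p := (1 : ℝ≥0∞)) (by simp)).2 ?_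
  have h2 : (fun n => ‖F n * wr n‖ ^ (1 : ℝ≥0∞).toReal) = fun n => ‖F n‖ * wr n := by
    funext n
    simp [abs_of_pos (wr_pos n)]
  rw [h2]
  exact h⟩

theorem mk_apply (F : ℤ → ℝ) (h : Sm wr F) (n : ℤ) : (mk F h) n = F n * wr n := rfl

theorem un_mk (F : ℤ → ℝ) (h : Sm wr F) : un (mk F h) = F := by
  funext n
  unfold un
  rw [mk_apply]
  have := (wr_pos n).ne'
  field_simp

theorem un_sub (x y : E) (n : ℤ) : un (x - y) n = un x n - un y n := by
  unfold un
  rw [lp.coeFn_sub, Pi.sub_apply, sub_div]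

theorem un_inj {x y : E} (h : un x = un y) : x = y := by
  ext n
  have h1 := congrFun h n
  unfold un at h1
  have h2 := (wr_pos n).ne'
  field_simp at h1
  exact h1

theorem dist_E (x y : E) : dist x y = nm wr (fun n => un x n - un y n) := by
  rw [dist_eq_norm, ← nm_un]
  congr 1
  funext n
  exact un_sub x y n

/-! ## The norm -/

theorem nm_nonneg (F : ℤ → ℝ) : 0 ≤ nm wr F :=
  tsum_nonneg fun n => mul_nonneg (norm_nonneg _) (wr_pos n).le

theorem pt_wr {F : ℤ → ℝ} (h : Sm wr F) (n : ℤ) : |F n| * wr n ≤ nm wr F := by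
  have := h.le_tsum n (fun m _ => mul_nonneg (norm_nonneg _) (wr_pos m).le)
  exact this

theorem pt_le {F : ℤ → ℝ} (h : Sm wr F) (n : ℤ) : |F n| ≤ nm wr F := by
  refine le_trans ?_ (pt_wr h n)
  exact le_mul_of_one_le_right (abs_nonneg _) (wr_one n)

theorem sm_of_le {F : ℤ → ℝ} {G : ℤ → ℝ} (hG : Sm wr G) (h : ∀ n, |F n| ≤ |G n|) : Sm wr F := by
  refine Summable.of_nonneg_of_le (fun n => mul_nonneg (norm_nonneg _) (wr_pos n).le)
    (fun n => ?_) hG
  exact mul_le_mul_of_nonneg_right (h n) (wr_pos n).le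

theorem nm_mono {F : ℤ → ℝ} {G : ℤ → ℝ} (hG : Sm wr G) (h : ∀ n, |F n| ≤ |G n|) :
    nm wr F ≤ nm wr G := by
  refine Summable.tsum_le_tsum (fun n => ?_) (sm_of_le hG h) hG
  exact mul_le_mul_of_nonneg_right (h n) (wr_pos n).le

theorem sm_add {F G : ℤ → ℝ} (hF : Sm wr F) (hG : Sm wr G) : Sm wr (fun n => F n + G n) := by
  refine Summable.of_nonneg_of_le (fun n => mul_nonneg (norm_nonneg _) (wr_pos n).le)
    (fun n => ?_) (hF.add hG)
  rw [← add_mul]
  exact mul_le_mul_of_nonneg_right (norm_add_le _ _) (wr_pos n).le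

theorem nm_add {F G : ℤ → ℝ} (hF : Sm wr F) (hG : Sm wr G) :
    nm wr (fun n => F n + G n) ≤ nm wr F + nm wr G := by
  unfold nm
  rw [← Summable.tsum_add hF hG]
  refine Summable.tsum_le_tsum (fun n => ?_) (sm_add hF hG) (hF.add hG)
  rw [← add_mul]
  exact mul_le_mul_of_nonneg_right (norm_add_le _ _) (wr_pos n).le

theorem sm_mul {F : ℤ → ℝ} (hF : Sm wr F) (c : ℝ) : Sm wr (fun n => c * F n) := by
  have h := hF.mul_left |c|
  refine h.congr fun n => ?_
  show |c| * (‖F n‖ * wr n) = ‖c * F n‖ * wr n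
  simp only [norm_mul, Real.norm_eq_abs]
  ring

theorem nm_mul (F : ℤ → ℝ) (c : ℝ) : nm wr (fun n => c * F n) = |c| * nm wr F := by
  unfold nm
  rw [← tsum_mul_left]
  congr 1
  funext n
  simp only [norm_mul, Real.norm_eq_abs]
  ring

theorem sm_neg {F : ℤ → ℝ} (hF : Sm wr F) : Sm wr (fun n => - F n) := by
  refine hF.congr fun n => ?_
  rw [norm_neg]

theorem sm_sub {F G : ℤ → ℝ} (hF : Sm wr F) (hG : Sm wr G) : Sm wr (fun n => F n - G n) := by
  have := sm_add hF (sm_neg hG)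
  simpa [sub_eq_add_neg] using this

theorem nm_neg (F : ℤ → ℝ) : nm wr (fun n => - F n) = nm wr F := by
  unfold nm
  simp only [norm_neg]

theorem nm_sub {F G : ℤ → ℝ} (hF : Sm wr F) (hG : Sm wr G) :
    nm wr (fun n => F n - G n) ≤ nm wr F + nm wr G := by
  have := nm_add hF (sm_neg hG)
  rw [nm_neg] at this
  simpa [sub_eq_add_neg] using this

theorem sm_shift {F : ℤ → ℝ} (hF : Sm wr F) (m : ℤ) : Sm wr (fun n => F (n + m)) := by
  have h1 : Summable fun n => ‖F (n + m)‖ * wr (n + m) :=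
    (Equiv.addRight m).summable_iff.2 hF
  refine Summable.of_nonneg_of_le (fun n => mul_nonneg (norm_nonneg _) (wr_pos n).le)
    (fun n => ?_) (h1.mul_left (wr m))
  have h2 : wr n ≤ wr m * wr (n + m) := by
    have h3 := wt_wr.2 (-m) (n + m)
    have h4 : -m + (n + m) = n := by ring
    have h5 : wr (-m) = wr m := by
      unfold wr
      rw [Int.natAbs_neg]
    rw [h4, h5] at h3
    exact h3
  calc ‖F (n + m)‖ * wr n ≤ ‖F (n + m)‖ * (wr m * wr (n + m)) :=
        mul_le_mul_of_nonneg_left h2 (norm_nonneg _)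
    _ = wr m * (‖F (n + m)‖ * wr (n + m)) := by ring

theorem nm_shift {F : ℤ → ℝ} (hF : Sm wr F) (m : ℤ) :
    nm wr (fun n => F (n + m)) ≤ wr m * nm wr F := by
  have h1 : Summable fun n => ‖F (n + m)‖ * wr (n + m) :=
    (Equiv.addRight m).summable_iff.2 hF
  have h0 : nm wr F = ∑' n, ‖F (n + m)‖ * wr (n + m) :=
    ((Equiv.addRight m).tsum_eq (fun n => ‖F n‖ * wr n)).symm
  rw [h0, ← tsum_mul_left]
  refine Summable.tsum_le_tsum (fun n => ?_) (sm_shift hF m) (h1.mul_left (wr m))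
  have h2 : wr n ≤ wr m * wr (n + m) := by
    have h3 := wt_wr.2 (-m) (n + m)
    have h4 : -m + (n + m) = n := by ring
    have h5 : wr (-m) = wr m := by
      unfold wr
      rw [Int.natAbs_neg]
    rw [h4, h5] at h3
    exact h3
  calc ‖F (n + m)‖ * wr n ≤ ‖F (n + m)‖ * (wr m * wr (n + m)) :=
        mul_le_mul_of_nonneg_left h2 (norm_nonneg _)
    _ = wr m * (‖F (n + m)‖ * wr (n + m)) := by ring

theorem sm_norm {F : ℤ → ℝ} (hF : Sm wr F) : Summable fun n => ‖F n‖ := by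
  refine Summable.of_nonneg_of_le (fun n => norm_nonneg _) (fun n => ?_) hF
  exact le_mul_of_one_le_right (norm_nonneg _) (wr_one n)

/-! ## Finite supports -/

theorem sm_fin {F : ℤ → ℝ} (A : Finset ℤ) (h : ∀ n ∉ A, F n = 0) : Sm wr F := by
  refine summable_of_ne_finset_zero (s := A) fun n hn => ?_
  rw [h n hn, norm_zero, zero_mul]

theorem nm_fin {F : ℤ → ℝ} (A : Finset ℤ) (h : ∀ n ∉ A, F n = 0) :
    nm wr F = ∑ n ∈ A, |F n| * wr n := by
  refine tsum_eq_sum fun n hn => ?_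
  rw [h n hn, norm_zero, zero_mul]

theorem T3_fin (F G H : ℤ → ℝ) (A B : Finset ℤ) (hA : ∀ n ∉ A, F n = 0)
    (hB : ∀ n ∉ B, G n = 0) (n : ℤ) :
    T3 F G H n = ∑ a ∈ A, ∑ b ∈ B, F a * G b * H (n - a - b) := by
  unfold T3
  rw [tsum_eq_sum (s := A ×ˢ B), Finset.sum_product]
  intro h hh
  rw [Finset.mem_product, not_and_or] at hh
  rcases hh with h1 | h1
  · rw [hA _ h1, zero_mul, zero_mul]
  · rw [hB _ h1, mul_zero, zero_mul]

end

end Pool.Agent.BOX.H64
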