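import Pool.Agent.Helper64_BOX.PrtA

/-!
# Squad BOX, row PRT: the map and its estimates
-/

namespace Pool.Agent.BOX.H64

open Set Filter Topology MeasureTheory
open Pool.Agent.BOX
open scoped ENNReal

noncomputable section

/-- The main mode. -/
def ee (n : ℤ) : ℝ := (eq1 n : ℚ)

/-- The centre. -/
def gg (n : ℤ) : ℝ := (gq n : ℚ)

theorem eq1_out (n : ℤ) (h : n ∉ SE) : eq1 n = 0 := by
  unfold eq1
  rw [if_neg]
  intro h1
  apply h
  have : n = -1 ∨ n = 1 := by omega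
  rcases this with rfl | rfl <;> decide

theorem gq_out (n : ℤ) (h : n ∉ SG) : gq n = 0 := by
  have hh : n ≠ -7 ∧ n ≠ -5 ∧ n ≠ -3 ∧ n ≠ 3 ∧ n ≠ 5 ∧ n ≠ 7 := by
    refine ⟨?_, ?_, ?_, ?_, ?_, ?_⟩ <;>
    · rintro rfl
      exact h (by decide)
  unfold gq
  rw [if_neg (by omega), if_neg (by omega), if_neg (by omega)]

theorem ee_out (n : ℤ) (h : n ∉ SE) : ee n = 0 := by
  unfold ee
  rw [eq1_out n h, Rat.cast_zero]

theorem gg_out (n : ℤ) (h : n ∉ SG) : gg n = 0 := by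
  unfold gg
  rw [gq_out n h, Rat.cast_zero]

theorem sm_ee : Sm wr ee := sm_fin SE ee_out

theorem sm_gg : Sm wr gg := sm_fin SG gg_out

theorem nm_ee : nm wr ee = 202 / 100 := by
  rw [nm_fin SE ee_out]
  have h : (∑ n ∈ SE, |eq1 n| * (101 / 100) ^ n.natAbs : ℚ) = 202 / 100 := by decide +kernel
  have h2 := congrArg (fun x : ℚ => (x : ℝ)) h
  push_cast at h2
  rw [← h2]
  rfl

theorem nm_gg : nm wr gg ≤ 19 / 100 := by
  rw [nm_fin SG gg_out]
  have h : (∑ n ∈ SG, |gq n| * (101 / 100) ^ n.natAbs : ℚ) ≤ 19 / 100 := by decide +kernel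
  have h2 : ((∑ n ∈ SG, |gq n| * (101 / 100) ^ n.natAbs : ℚ) : ℝ) ≤ ((19 / 100 : ℚ) : ℝ) :=
    Rat.cast_le.2 h
  push_cast at h2
  exact h2

/-- The value of `s`. -/
def sv (g : ℤ → ℝ) : ℝ := 3 * g 3 + 3 * T3 ee g g 1 + T3 g g g 1

/-- The index set. -/
def Ix (n : ℤ) : Prop := Odd n ∧ 3 ≤ n.natAbs

open Classical in
/-- The map. -/
def phi (g : ℤ → ℝ) (n : ℤ) : ℝ :=
  if Ix n then ((if n.natAbs = 3 then 1 else 0) + 3 * (g (n - 2) + g (n + 2)) +
    3 * T3 ee g g n + T3 g g g n + 18 * (g n) ^ 3 - sv g * g n) / 15 else 0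

section est

variable (T3A : T3aStmt) (T3S : T3sStmt)

include T3A in
theorem sm_T3 {F G H : ℤ → ℝ} (hF : Sm wr F) (hG : Sm wr G) (hH : Sm wr H) :
    Sm wr (T3 F G H) := (T3A ℤ ℝ wr F G H wt_wr hF hG hH).2.1

include T3A in
theorem nm_T3 {F G H : ℤ → ℝ} (hF : Sm wr F) (hG : Sm wr G) (hH : Sm wr H) :
    nm wr (T3 F G H) ≤ nm wr F * nm wr G * nm wr H := (T3A ℤ ℝ wr F G H wt_wr hF hG hH).2.2

include T3S in
theorem T3_add1 {F F' G H : ℤ → ℝ} (hF : Sm wr F) (hF' : Sm wr F') (hG : Sm wr G) (hH : Sm wr H)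
    (n : ℤ) : T3 (fun x => F x + F' x) G H n = T3 F G H n + T3 F' G H n :=
  (T3S ℤ ℝ F F' G H (sm_norm hF) (sm_norm hF') (sm_norm hG) (sm_norm hH) n).1

include T3S in
theorem T3_sw1 {F G H : ℤ → ℝ} (hF : Sm wr F) (hG : Sm wr G) (hH : Sm wr H) (n : ℤ) :
    T3 F G H n = T3 G F H n :=
  (T3S ℤ ℝ F F G H (sm_norm hF) (sm_norm hF) (sm_norm hG) (sm_norm hH) n).2.1

include T3S in
theorem T3_sw2 {F G H : ℤ → ℝ} (hF : Sm wr F) (hG : Sm wr G) (hH : Sm wr H) (n : ℤ) :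
    T3 F G H n = T3 F H G n :=
  (T3S ℤ ℝ F F G H (sm_norm hF) (sm_norm hF) (sm_norm hG) (sm_norm hH) n).2.2.1

include T3S in
theorem T3_add2 {F G G' H : ℤ → ℝ} (hF : Sm wr F) (hG : Sm wr G) (hG' : Sm wr G') (hH : Sm wr H)
    (n : ℤ) : T3 F (fun x => G x + G' x) H n = T3 F G H n + T3 F G' H n := by
  rw [T3_sw1 T3S hF (sm_add hG hG') hH, T3_add1 T3S hG hG' hF hH, T3_sw1 T3S hG hF hH,
    T3_sw1 T3S hG' hF hH]

include T3S in
theorem T3_add3 {F G H H' : ℤ → ℝ} (hF : Sm wr F) (hG : Sm wr G) (hH : Sm wr H)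
    (hH' : Sm wr H') (n : ℤ) : T3 F G (fun x => H x + H' x) n = T3 F G H n + T3 F G H' n := by
  rw [T3_sw2 T3S hF hG (sm_add hH hH'), T3_add2 T3S hF hH hH' hG, T3_sw2 T3S hF hH hG,
    T3_sw2 T3S hF hH' hG]

/-- Differences. -/
theorem add_sub_fun (F G : ℤ → ℝ) : (fun n => G n + (F n - G n)) = F := by
  funext n
  ring

include T3S in
theorem T3_sub2 {F G G' H : ℤ → ℝ} (hF : Sm wr F) (hG : Sm wr G) (hG' : Sm wr G') (hH : Sm wr H)
    (n : ℤ) : T3 F G H n - T3 F G' H n = T3 F (fun x => G x - G' x) H n := by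
  have h := T3_add2 T3S hF hG' (sm_sub hG hG') hH n
  rw [add_sub_fun G G'] at h
  rw [h]
  ring

include T3S in
theorem T3_sub3 {F G H H' : ℤ → ℝ} (hF : Sm wr F) (hG : Sm wr G) (hH : Sm wr H)
    (hH' : Sm wr H') (n : ℤ) : T3 F G H n - T3 F G H' n = T3 F G (fun x => H x - H' x) n := by
  have h := T3_add3 T3S hF hG hH' (sm_sub hH hH') n
  rw [add_sub_fun H H'] at h
  rw [h]
  ring

include T3S in
theorem T3_sub1 {F F' G H : ℤ → ℝ} (hF : Sm wr F) (hF' : Sm wr F') (hG : Sm wr G) (hH : Sm wr H)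
    (n : ℤ) : T3 F G H n - T3 F' G H n = T3 (fun x => F x - F' x) G H n := by
  have h := T3_add1 T3S hF' (sm_sub hF hF') hG hH n
  rw [add_sub_fun F F'] at h
  rw [h]
  ring

include T3A T3S in
/-- The difference of the quadratic terms. -/
theorem quad_diff {g g' : ℤ → ℝ} (hg : Sm wr g) (hg' : Sm wr g') :
    Sm wr (fun n => T3 ee g g n - T3 ee g' g' n) ∧
    nm wr (fun n => T3 ee g g n - T3 ee g' g' n) ≤
      202 / 100 * (nm wr g + nm wr g') * nm wr (fun n => g n - g' n) := by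
  have hd := sm_sub hg hg'
  have h1 : (fun n => T3 ee g g n - T3 ee g' g' n) =
      fun n => T3 ee (fun x => g x - g' x) g n + T3 ee g' (fun x => g x - g' x) n := by
    funext n
    have h2 := T3_sub2 T3S sm_ee hg hg' hg n
    have h3 := T3_sub3 T3S sm_ee hg' hg hg' n
    linarith
  rw [h1]
  have s1 := sm_T3 T3A sm_ee hd hg
  have s2 := sm_T3 T3A sm_ee hg' hd
  refine ⟨sm_add s1 s2, ?_⟩
  have n1 := nm_T3 T3A sm_ee hd hg
  have n2 := nm_T3 T3A sm_ee hg' hd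
  rw [nm_ee] at n1 n2
  have n3 := nm_add s1 s2
  nlinarith [n1, n2, n3]

include T3A T3S in
/-- The difference of the cubic terms. -/
theorem cub_diff {g g' : ℤ → ℝ} (hg : Sm wr g) (hg' : Sm wr g') :
    Sm wr (fun n => T3 g g g n - T3 g' g' g' n) ∧
    nm wr (fun n => T3 g g g n - T3 g' g' g' n) ≤
      (nm wr g * nm wr g + nm wr g * nm wr g' + nm wr g' * nm wr g') *
        nm wr (fun n => g n - g' n) := by
  have hd := sm_sub hg hg'
  have h1 : (fun n => T3 g g g n - T3 g' g' g' n) =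
      fun n => (T3 (fun x => g x - g' x) g g n + T3 g' (fun x => g x - g' x) g n) +
        T3 g' g' (fun x => g x - g' x) n := by
    funext n
    have h2 := T3_sub1 T3S hg hg' hg hg n
    have h3 := T3_sub2 T3S hg' hg hg' hg n
    have h4 := T3_sub3 T3S hg' hg' hg hg' n
    linarith
  rw [h1]
  have s1 := sm_T3 T3A hd hg hg
  have s2 := sm_T3 T3A hg' hd hg
  have s3 := sm_T3 T3A hg' hg' hd
  refine ⟨sm_add (sm_add s1 s2) s3, ?_⟩
  have n1 := nm_T3 T3A hd hg hg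
  have n2 := nm_T3 T3A hg' hd hg
  have n3 := nm_T3 T3A hg' hg' hd
  have n4 := nm_add (sm_add s1 s2) s3
  have n5 := nm_add s1 s2
  nlinarith [n1, n2, n3, n4, n5]

end est

end

end Pool.Agent.BOX.H64
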