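import Pool.Agent.Helper64_BOX.PrtB

/-!
# Squad BOX, row PRT: the Lipschitz estimate
-/

namespace Pool.Agent.BOX.H64

open Set Filter Topology MeasureTheory
open Pool.Agent.BOX
open scoped ENNReal

noncomputable section

theorem sm_absf {F : ℤ → ℝ} (hF : Sm wr F) : Sm wr (fun n => |F n|) := by
  refine hF.congr fun n => ?_
  simp only [Real.norm_eq_abs, abs_abs]

theorem nm_absf (F : ℤ → ℝ) : nm wr (fun n => |F n|) = nm wr F := by
  unfold nm
  simp only [Real.norm_eq_abs, abs_abs]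

theorem nm_two {F G : ℤ → ℝ} (hF : Sm wr F) (hG : Sm wr G) (a b : ℝ) :
    Sm wr (fun n => a * F n + b * G n) ∧
    nm wr (fun n => a * F n + b * G n) ≤ |a| * nm wr F + |b| * nm wr G := by
  refine ⟨sm_add (sm_mul hF a) (sm_mul hG b), ?_⟩
  have := nm_add (sm_mul hF a) (sm_mul hG b)
  rw [nm_mul, nm_mul] at this
  exact this

section est

variable (T3A : T3aStmt) (T3S : T3sStmt)

include T3A in
theorem sv_le {g : ℤ → ℝ} (hg : Sm wr g) (b : nm wr g ≤ 23 / 100) (p : ∀ n, |g n| ≤ 11 / 100) :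
    |sv g| ≤ 67 / 100 := by
  have h0 := nm_nonneg g
  have h1 := pt_le (sm_T3 T3A sm_ee hg hg) 1
  have h2 := pt_le (sm_T3 T3A hg hg hg) 1
  have h3 := nm_T3 T3A sm_ee hg hg
  have h4 := nm_T3 T3A hg hg hg
  rw [nm_ee] at h3
  have h5 := p 3
  have h6 : nm wr g * nm wr g ≤ 23 / 100 * (23 / 100) := mul_le_mul b b h0 (by norm_num)
  have h7 : nm wr g * nm wr g * nm wr g ≤ 23 / 100 * (23 / 100) * (23 / 100) :=
    mul_le_mul h6 b h0 (by norm_num)
  have h8 : |sv g| ≤ 3 * |g 3| + 3 * |T3 ee g g 1| + |T3 g g g 1| := by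
    unfold sv
    have a1 := abs_add_le (3 * g 3 + 3 * T3 ee g g 1) (T3 g g g 1)
    have a2 := abs_add_le (3 * g 3) (3 * T3 ee g g 1)
    rw [abs_mul, abs_mul, abs_of_pos (by norm_num : (0 : ℝ) < 3)] at a2
    linarith
  have h9 : 202 / 100 * nm wr g * nm wr g ≤ 202 / 100 * (23 / 100 * (23 / 100)) := by
    rw [mul_assoc]
    exact mul_le_mul_of_nonneg_left h6 (by norm_num)
  linarith

include T3A T3S in
theorem sv_diff {g g' : ℤ → ℝ} (hg : Sm wr g) (hg' : Sm wr g') (b : nm wr g ≤ 23 / 100)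
    (b' : nm wr g' ≤ 23 / 100) :
    |sv g - sv g'| ≤ 595 / 100 * nm wr (fun n => g n - g' n) := by
  obtain ⟨sq, nq⟩ := quad_diff T3A T3S hg hg'
  obtain ⟨sc, nc⟩ := cub_diff T3A T3S hg hg'
  have hd := sm_sub hg hg'
  have h0 := nm_nonneg g
  have h0' := nm_nonneg g'
  have hD := nm_nonneg (fun n => g n - g' n)
  have h1 := pt_le sq 1
  have h2 := pt_le sc 1
  have h3 := pt_le hd 3
  have e1 : 202 / 100 * (nm wr g + nm wr g') * nm wr (fun n => g n - g' n) ≤
      202 / 100 * (46 / 100) * nm wr (fun n => g n - g' n) :=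
    mul_le_mul_of_nonneg_right (by linarith) hD
  have e2 : (nm wr g * nm wr g + nm wr g * nm wr g' + nm wr g' * nm wr g') *
        nm wr (fun n => g n - g' n) ≤ 1587 / 10000 * nm wr (fun n => g n - g' n) := by
    refine mul_le_mul_of_nonneg_right ?_ hD
    have a1 : nm wr g * nm wr g ≤ 23 / 100 * (23 / 100) := mul_le_mul b b h0 (by norm_num)
    have a2 : nm wr g * nm wr g' ≤ 23 / 100 * (23 / 100) := mul_le_mul b b' h0' (by norm_num)
    have a3 : nm wr g' * nm wr g' ≤ 23 / 100 * (23 / 100) := mul_le_mul b' b' h0' (by norm_num)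
    linarith
  have h4 : sv g - sv g' = 3 * (g 3 - g' 3) + 3 * (T3 ee g g 1 - T3 ee g' g' 1) +
      (T3 g g g 1 - T3 g' g' g' 1) := by
    unfold sv
    ring
  rw [h4]
  have a1 := abs_add_le (3 * (g 3 - g' 3) + 3 * (T3 ee g g 1 - T3 ee g' g' 1))
    (T3 g g g 1 - T3 g' g' g' 1)
  have a2 := abs_add_le (3 * (g 3 - g' 3)) (3 * (T3 ee g g 1 - T3 ee g' g' 1))
  rw [abs_mul, abs_mul, abs_of_pos (by norm_num : (0 : ℝ) < 3)] at a2
  linarith

include T3A T3S in
theorem phi_diff {g g' : ℤ → ℝ} (hg : Sm wr g) (hg' : Sm wr g') (b : nm wr g ≤ 23 / 100)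
    (b' : nm wr g' ≤ 23 / 100) (p : ∀ n, |g n| ≤ 11 / 100) (p' : ∀ n, |g' n| ≤ 11 / 100) :
    Sm wr (fun n => phi g n - phi g' n) ∧
    nm wr (fun n => phi g n - phi g' n) ≤ 79 / 100 * nm wr (fun n => g n - g' n) := by
  obtain ⟨sq, nq⟩ := quad_diff T3A T3S hg hg'
  obtain ⟨sc, nc⟩ := cub_diff T3A T3S hg hg'
  have hd := sm_sub hg hg'
  have hD := nm_nonneg (fun n => g n - g' n)
  have h0 := nm_nonneg g
  have h0' := nm_nonneg g'
  have hs := sv_le T3A hg b p
  have hsd := sv_diff T3A T3S hg hg' b b'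
  obtain ⟨D, hDe⟩ : ∃ D, D = nm wr (fun n => g n - g' n) := ⟨_, rfl⟩
  have e1 : 202 / 100 * (nm wr g + nm wr g') * nm wr (fun n => g n - g' n) ≤
      202 / 100 * (46 / 100) * nm wr (fun n => g n - g' n) :=
    mul_le_mul_of_nonneg_right (by linarith) hD
  have e2 : (nm wr g * nm wr g + nm wr g * nm wr g' + nm wr g' * nm wr g') *
        nm wr (fun n => g n - g' n) ≤ 1587 / 10000 * nm wr (fun n => g n - g' n) := by
    refine mul_le_mul_of_nonneg_right ?_ hD
    have a1 : nm wr g * nm wr g ≤ 23 / 100 * (23 / 100) := mul_le_mul b b h0 (by norm_num)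
    have a2 : nm wr g * nm wr g' ≤ 23 / 100 * (23 / 100) := mul_le_mul b b' h0' (by norm_num)
    have a3 : nm wr g' * nm wr g' ≤ 23 / 100 * (23 / 100) := mul_le_mul b' b' h0' (by norm_num)
    linarith
  -- the majorant
  have m1 := nm_two (sm_absf (sm_shift hd (-2))) (sm_absf (sm_shift hd 2)) (1 / 5) (1 / 5)
  have m2 := nm_two (sm_absf sq) (sm_absf sc) (1 / 5) (1 / 15)
  have m3 := nm_two (sm_absf hd) (sm_absf hg') (13234 / 150000) (595 / 1500 * D)
  have m4 := sm_add m1.1 (sm_add m2.1 m3.1)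
  have m5 := nm_add m1.1 (sm_add m2.1 m3.1)
  have m6 := nm_add m2.1 m3.1
  rw [nm_absf, nm_absf] at m1 m2 m3
  have s1 := nm_shift hd (-2)
  have s2 := nm_shift hd 2
  have w1 : wr (-2) = 10201 / 10000 := by
    unfold wr
    norm_num
  have w2' : wr 2 = 10201 / 10000 := by
    unfold wr
    norm_num
  rw [w1] at s1
  rw [w2'] at s2
  rw [← hDe] at hD hsd e1 e2 s1 s2 nq nc m3 ⊢
  have hpt : ∀ n, |phi g n - phi g' n| ≤ |((1 / 5) * |g (n + -2) - g' (n + -2)| +
      (1 / 5) * |g (n + 2) - g' (n + 2)|) + (((1 / 5) * |T3 ee g g n - T3 ee g' g' n| +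
      (1 / 15) * |T3 g g g n - T3 g' g' g' n|) + ((13234 / 150000) * |g n - g' n| +
      (595 / 1500 * D) * |g' n|))| := by
    intro n
    have hnn : 0 ≤ ((1 / 5) * |g (n + -2) - g' (n + -2)| +
      (1 / 5) * |g (n + 2) - g' (n + 2)|) + (((1 / 5) * |T3 ee g g n - T3 ee g' g' n| +
      (1 / 15) * |T3 g g g n - T3 g' g' g' n|) + ((13234 / 150000) * |g n - g' n| +
      (595 / 1500 * D) * |g' n|)) := by positivity
    rw [abs_of_nonneg hnn]
    by_cases hI : Ix n
    · have h1 : phi g n - phi g' n = (3 * (g (n + -2) - g' (n + -2)) +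
          3 * (g (n + 2) - g' (n + 2)) + 3 * (T3 ee g g n - T3 ee g' g' n) +
          (T3 g g g n - T3 g' g' g' n) + (18 * (g n ^ 2 + g n * g' n + g' n ^ 2) - sv g) *
          (g n - g' n) - (sv g - sv g') * g' n) / 15 := by
        unfold phi
        rw [if_pos hI, if_pos hI]
        have h2 : n - 2 = n + -2 := by ring
        rw [h2]
        ring
      rw [h1, abs_div, abs_of_pos (by norm_num : (0 : ℝ) < 15)]
      have hp := p n
      have hp' := p' n
      have q1 : |18 * (g n ^ 2 + g n * g' n + g' n ^ 2) - sv g| ≤ 13234 / 10000 := by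
        have r1 : g n ^ 2 ≤ 121 / 10000 := by
          rw [← sq_abs]
          nlinarith [abs_nonneg (g n)]
        have r2 : g' n ^ 2 ≤ 121 / 10000 := by
          rw [← sq_abs]
          nlinarith [abs_nonneg (g' n)]
        have r3 := sq_nonneg (g n - g' n)
        have r4 := sq_nonneg (g n + g' n)
        have r5 := abs_le.1 hs
        rw [abs_le]
        constructor <;> nlinarith
      have t1 := abs_sub (3 * (g (n + -2) - g' (n + -2)) +
          3 * (g (n + 2) - g' (n + 2)) + 3 * (T3 ee g g n - T3 ee g' g' n) +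
          (T3 g g g n - T3 g' g' g' n) + (18 * (g n ^ 2 + g n * g' n + g' n ^ 2) - sv g) *
          (g n - g' n)) ((sv g - sv g') * g' n)
      have t2 := abs_add_le (3 * (g (n + -2) - g' (n + -2)) +
          3 * (g (n + 2) - g' (n + 2)) + 3 * (T3 ee g g n - T3 ee g' g' n) +
          (T3 g g g n - T3 g' g' g' n)) ((18 * (g n ^ 2 + g n * g' n + g' n ^ 2) - sv g) *
          (g n - g' n))
      have t3 := abs_add_le (3 * (g (n + -2) - g' (n + -2)) +
          3 * (g (n + 2) - g' (n + 2)) + 3 * (T3 ee g g n - T3 ee g' g' n))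
          (T3 g g g n - T3 g' g' g' n)
      have t4 := abs_add_le (3 * (g (n + -2) - g' (n + -2)) +
          3 * (g (n + 2) - g' (n + 2))) (3 * (T3 ee g g n - T3 ee g' g' n))
      have t5 := abs_add_le (3 * (g (n + -2) - g' (n + -2))) (3 * (g (n + 2) - g' (n + 2)))
      rw [abs_mul, abs_mul, abs_of_pos (by norm_num : (0 : ℝ) < 3)] at t5
      rw [abs_mul 3 (T3 ee g g n - T3 ee g' g' n), abs_of_pos (by norm_num : (0 : ℝ) < 3)] at t4
      rw [abs_mul (18 * (g n ^ 2 + g n * g' n + g' n ^ 2) - sv g) (g n - g' n)] at t2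
      rw [abs_mul (sv g - sv g') (g' n)] at t1
      have u1 : |18 * (g n ^ 2 + g n * g' n + g' n ^ 2) - sv g| * |g n - g' n| ≤
          13234 / 10000 * |g n - g' n| := mul_le_mul_of_nonneg_right q1 (abs_nonneg _)
      have u2 : |sv g - sv g'| * |g' n| ≤ 595 / 100 * D * |g' n| :=
        mul_le_mul_of_nonneg_right hsd (abs_nonneg _)
      rw [div_le_iff₀ (by norm_num)]
      linarith
    · have h1 : phi g n - phi g' n = 0 := by
        unfold phi
        rw [if_neg hI, if_neg hI, sub_zero]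
      rw [h1, abs_zero]
      exact hnn
  refine ⟨sm_of_le m4 hpt, (nm_mono m4 hpt).trans ?_⟩
  have k1 := m1.2
  have k2 := m2.2
  have k3 := m3.2
  have c1 : |(1 / 5 : ℝ)| = 1 / 5 := abs_of_pos (by norm_num)
  have c2 : |(1 / 15 : ℝ)| = 1 / 15 := abs_of_pos (by norm_num)
  have c3 : |(13234 / 150000 : ℝ)| = 13234 / 150000 := abs_of_pos (by norm_num)
  have c4 : |(595 / 1500 * D : ℝ)| = 595 / 1500 * D := abs_of_nonneg (by positivity)
  rw [c1] at k1 k2
  rw [c2] at k2
  rw [c3, c4] at k3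
  have v1 : 595 / 1500 * D * nm wr g' ≤ 595 / 1500 * D * (23 / 100) :=
    mul_le_mul_of_nonneg_left b' (by positivity)
  linarith

end est

end

end Pool.Agent.BOX.H64
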